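import Mathlib

namespace Pool.Agent.Results.MP_848b0a_co.EquivFrankl

open Finset

/-- `F` is union-closed over `[n]` (modelled as `Fin n`): all members are nonempty, `[n] ∈ F`,
and `F` is closed under unions. -/
def UnionClosedOver {n : ℕ} (F : Finset (Finset (Fin n))) : Prop :=
  (∀ A ∈ F, A.Nonempty) ∧ (univ : Finset (Fin n)) ∈ F ∧ ∀ A ∈ F, ∀ B ∈ F, A ∪ B ∈ F

/-- The family `2^{[n]}` of all nonempty subsets of `[n]`. -/
def allSets (n : ℕ) : Finset (Finset (Fin n)) := univ.filter fun A => A.Nonempty

open Classical in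
/-- The closure of `F`: all nonempty `A` such that `F ∪ {A}` is union-closed over `[n]`. -/
noncomputable def closure {n : ℕ} (F : Finset (Finset (Fin n))) : Finset (Finset (Fin n)) :=
  (allSets n).filter fun A => UnionClosedOver (insert A F)

/-- `F` is `k`-dense: `k` is the least number such that the `k`-th iterated closure of `F`
is the family of all nonempty subsets. -/
def IsDense {n : ℕ} (k : ℕ) (F : Finset (Finset (Fin n))) : Prop :=
  closure^[k] F = allSets n ∧ ∀ j < k, closure^[j] F ≠ allSets n

/-- The half condition: some `i` lies in at least `⌊|F|/2⌋` members of `F`. -/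
def HalfCondition {n : ℕ} (F : Finset (Finset (Fin n))) : Prop :=
  ∃ i : Fin n, F.card / 2 ≤ (F.filter fun A => i ∈ A).card

/-- Q1 of the problem for one fixed `n`. -/
def Q1At (n : ℕ) : Prop :=
  ∀ F : Finset (Finset (Fin n)), UnionClosedOver F → IsDense (n - 1) F → HalfCondition F

/-- Frankl's union-closed sets conjecture for families on the fixed ground set `[m]`:
every union-closed family (which may contain `∅`) with a nonempty member has an element of the
ground set that lies in at least half of its members. -/
def FranklAt (m : ℕ) : Prop :=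
  ∀ G : Finset (Finset (Fin m)), (∃ A ∈ G, A.Nonempty) → (∀ A ∈ G, ∀ B ∈ G, A ∪ B ∈ G) →
    ∃ i : Fin m, G.card ≤ 2 * (G.filter fun A => i ∈ A).card

section basics

variable {n : ℕ}

lemma mem_allSets {A : Finset (Fin n)} : A ∈ allSets n ↔ A.Nonempty := by
  simp [allSets]

lemma mem_closure {F : Finset (Finset (Fin n))} (hF : UnionClosedOver F) {A : Finset (Fin n)} :
    A ∈ closure F ↔ A.Nonempty ∧ ∀ B ∈ F, A ∪ B ∈ F ∨ B ⊆ A := by
  obtain ⟨h1, h2, h3⟩ := hF
  simp only [closure, mem_filter, mem_allSets]
  refine and_congr_right fun hA => ⟨fun h B hB => ?_, fun h => ⟨?_, ?_, ?_⟩⟩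
  · have := h.2.2 A (mem_insert_self _ _) B (mem_insert_of_mem hB)
    rcases mem_insert.1 this with h' | h'
    · right
      exact (union_eq_left.1 h')
    · exact Or.inl h'
  · intro B hB
    rcases mem_insert.1 hB with hB' | hB'
    · rw [hB']; exact hA
    · exact h1 B hB'
  · exact mem_insert_of_mem h2
  · intro B hB C hC
    rcases mem_insert.1 hB with hB' | hB'
    · rcases mem_insert.1 hC with hC' | hC'
      · rw [hB', hC', union_self]; exact mem_insert_self _ _
      · rw [hB']
        rcases h C hC' with h' | h'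
        · exact mem_insert_of_mem h'
        · rw [union_eq_left.2 h']; exact mem_insert_self _ _
    · rcases mem_insert.1 hC with hC' | hC'
      · rw [hC']
        rcases h B hB' with h' | h'
        · rw [union_comm]; exact mem_insert_of_mem h'
        · rw [union_eq_right.2 h']; exact mem_insert_self _ _
      · exact mem_insert_of_mem (h3 B hB' C hC')

lemma subset_closure {F : Finset (Finset (Fin n))} (hF : UnionClosedOver F) : F ⊆ closure F := by
  intro A hA
  rw [mem_closure hF]
  exact ⟨hF.1 A hA, fun B hB => Or.inl (hF.2.2 A hA B hB)⟩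

lemma closure_uc {F : Finset (Finset (Fin n))} (hF : UnionClosedOver F) :
    UnionClosedOver (closure F) := by
  refine ⟨fun A hA => ((mem_closure hF).1 hA).1, subset_closure hF hF.2.1, ?_⟩
  intro A hA B hB
  rw [mem_closure hF] at hA hB ⊢
  refine ⟨hA.1.mono subset_union_left, fun C hC => ?_⟩
  rcases hA.2 C hC with h | h
  · rcases hB.2 _ h with h' | h'
    · left
      have : A ∪ B ∪ C = B ∪ (A ∪ C) := by
        rw [union_comm A B, union_assoc]
      rw [this]; exact h'
    · right
      exact (subset_union_right.trans h').trans subset_union_right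
  · right
    exact h.trans subset_union_left

lemma iter_uc {F : Finset (Finset (Fin n))} (hF : UnionClosedOver F) (k : ℕ) :
    UnionClosedOver (closure^[k] F) := by
  induction k with
  | zero => exact hF
  | succ k ih => rw [Function.iterate_succ_apply']; exact closure_uc ih

lemma iter_mono {F : Finset (Finset (Fin n))} (hF : UnionClosedOver F) {j k : ℕ} (h : j ≤ k) :
    closure^[j] F ⊆ closure^[k] F := by
  induction k, h using Nat.le_induction with
  | base => exact subset_rfl
  | succ k _ ih =>
    rw [Function.iterate_succ_apply']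
    exact ih.trans (subset_closure (iter_uc hF k))

/-- All sets of size at least `n - k` are in the `k`-th closure. -/
lemma mem_iter_of_card {F : Finset (Finset (Fin n))} (hF : UnionClosedOver F) (k : ℕ) :
    ∀ A : Finset (Fin n), A.Nonempty → n ≤ A.card + k → A ∈ closure^[k] F := by
  induction k with
  | zero =>
    intro A _ hc
    have : A = univ := by
      rw [← card_eq_iff_eq_univ, Fintype.card_fin]
      exact le_antisymm (by simpa using card_le_univ A) (by simpa using hc)
    rw [this]; exact hF.2.1
  | succ k ih =>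
    intro A hA hc
    rw [Function.iterate_succ_apply', mem_closure (iter_uc hF k)]
    refine ⟨hA, fun B _ => ?_⟩
    by_cases hBA : B ⊆ A
    · exact Or.inr hBA
    · left
      apply ih _ (hA.mono subset_union_left)
      have : A.card < (A ∪ B).card := by
        apply card_lt_card
        refine ⟨subset_union_left, fun h => hBA (subset_union_right.trans h)⟩
      omega

/-- Key construction: any union-closed family of nonempty subsets of an `(n-2)`-set `D` with
top `D`, together with `[n]`, is `(n-1)`-dense. -/
theorem dense_of_insert (D : Finset (Fin n)) (hD : D.card + 2 = n)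
    (F0 : Finset (Finset (Fin n))) (h1 : ∀ A ∈ F0, A.Nonempty) (h2 : ∀ A ∈ F0, A ⊆ D)
    (h3 : D ∈ F0) (h4 : ∀ A ∈ F0, ∀ B ∈ F0, A ∪ B ∈ F0) :
    UnionClosedOver (insert univ F0) ∧ IsDense (n - 1) (insert univ F0) := by
  have hn : 0 < n := by omega
  have hF : UnionClosedOver (insert univ F0) := by
    refine ⟨?_, mem_insert_self _ _, ?_⟩
    · intro A hA
      rcases mem_insert.1 hA with rfl | hA
      · exact ⟨⟨0, hn⟩, mem_univ _⟩
      · exact h1 A hA
    · intro A hA B hB
      rcases mem_insert.1 hA with rfl | hA
      · rw [union_eq_left.2 (subset_univ _)]; exact mem_insert_self _ _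
      · rcases mem_insert.1 hB with rfl | hB
        · rw [union_eq_right.2 (subset_univ _)]; exact mem_insert_self _ _
        · exact mem_insert_of_mem (h4 A hA B hB)
  refine ⟨hF, ?_, ?_⟩
  · apply subset_antisymm
    · intro A hA
      rw [mem_allSets]
      exact (iter_uc hF _).1 A hA
    · intro A hA
      rw [mem_allSets] at hA
      apply mem_iter_of_card hF _ A hA
      have := hA.card_pos
      omega
  · -- not everything before
    set F := insert univ F0 with hFdef
    -- type-Q property
    have Q : ∀ k, ∀ A ∈ closure^[k] F, ¬ A ⊆ D → ∀ A', A ⊆ A' → A' \ A ⊆ D →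
        A' ∈ closure^[k] F := by
      intro k
      induction k with
      | zero =>
        intro A hA hAD A' hAA' _
        rcases mem_insert.1 hA with rfl | hA
        · have : A' = univ := univ_subset_iff.1 hAA'
          rw [this]; exact hA
        · exact absurd (h2 A hA) hAD
      | succ k ih =>
        intro A hA hAD A' hAA' hd
        rw [Function.iterate_succ_apply', mem_closure (iter_uc hF k)] at hA ⊢
        refine ⟨hA.1.mono hAA', fun B hB => ?_⟩
        rcases hA.2 B hB with h | h
        · left
          apply ih _ h (fun hh => hAD (subset_union_left.trans hh))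
          · exact union_subset_union_left hAA'
          · intro v hv
            apply hd
            simp only [mem_sdiff, mem_union, not_or] at hv ⊢
            tauto
        · right; exact h.trans hAA'
    have P : ∀ k, ∀ A : Finset (Fin n), A.Nonempty → A ⊆ D → D.card ≤ A.card + k →
        A ∈ closure^[k] F := by
      intro k
      induction k with
      | zero =>
        intro A _ hAD hc
        have : A = D := eq_of_subset_of_card_le hAD (by simpa using hc)
        rw [this]; exact mem_insert_of_mem h3
      | succ k ih =>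
        intro A hA hAD hc
        rw [Function.iterate_succ_apply', mem_closure (iter_uc hF k)]
        refine ⟨hA, fun B hB => ?_⟩
        by_cases hBA : B ⊆ A
        · exact Or.inr hBA
        · left
          by_cases hBD : B ⊆ D
          · apply ih _ (hA.mono subset_union_left) (union_subset hAD hBD)
            have : A.card < (A ∪ B).card := by
              apply card_lt_card
              refine ⟨subset_union_left, fun h => hBA (subset_union_right.trans h)⟩
            omega
          · apply Q k B hB hBD _ subset_union_right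
            intro v hv
            simp only [mem_sdiff, mem_union] at hv
            rcases hv.1 with h | h
            · exact hAD h
            · exact absurd h hv.2
    have hcompl : (Dᶜ).card = 2 := by
      rw [card_compl, Fintype.card_fin]; omega
    obtain ⟨x, z, hxz, hD2⟩ := card_eq_two.1 hcompl
    have hx : x ∉ D := by
      rw [← mem_compl, hD2]; simp
    have hz : z ∉ D := by
      rw [← mem_compl, hD2]; simp
    have C : ∀ k, ∀ E : Finset (Fin n), E ⊆ D → E.card + k = D.card →
        insert x E ∉ closure^[k] F := by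
      intro k
      induction k with
      | zero =>
        intro E hED hc hmem
        have hE : E = D := eq_of_subset_of_card_le hED (by omega)
        subst hE
        rcases mem_insert.1 hmem with h | h
        · have : z ∈ insert x E := by rw [h]; exact mem_univ _
          rcases mem_insert.1 this with h' | h'
          · exact hxz h'.symm
          · exact hz h'
        · exact hx (h2 _ h (mem_insert_self _ _))
      | succ k ih =>
        intro E hED hc hmem
        obtain ⟨y, hyD, hyE⟩ : ∃ y ∈ D, y ∉ E := by
          by_contra hcon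
          push Not at hcon
          have : D.card ≤ E.card := card_le_card hcon
          omega
        have hE'D : insert y E ⊆ D := insert_subset hyD hED
        have hE'c : (insert y E).card = E.card + 1 := card_insert_of_notMem hyE
        have hE'mem : insert y E ∈ closure^[k] F :=
          P k _ (insert_nonempty _ _) hE'D (by omega)
        have hnot := ih (insert y E) hE'D (by omega)
        rw [Function.iterate_succ_apply', mem_closure (iter_uc hF k)] at hmem
        rcases hmem.2 _ hE'mem with h | h
        · apply hnot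
          have : insert x E ∪ insert y E = insert x (insert y E) := by
            ext v; simp only [mem_union, mem_insert]; tauto
          rwa [this] at h
        · have : y ∈ insert x E := h (mem_insert_self _ _)
          rcases mem_insert.1 this with h' | h'
          · subst h'; exact hx hyD
          · exact hyE h'
    intro j hj heq
    have hxm : insert x (∅ : Finset (Fin n)) ∉ closure^[D.card] F :=
      C D.card ∅ (empty_subset _) (by simp)
    apply hxm
    apply iter_mono hF (show j ≤ D.card by omega)
    rw [heq, mem_allSets]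
    exact insert_nonempty _ _

end basics

/-- WLOG step: a counterexample to Frankl on `[m]` can be chosen to contain `[m]`. -/
lemma wlog_top {m : ℕ} (G : Finset (Finset (Fin m))) (hne : ∃ A ∈ G, A.Nonempty)
    (hU : ∀ A ∈ G, ∀ B ∈ G, A ∪ B ∈ G)
    (hbad : ∀ i : Fin m, 2 * (G.filter fun A => i ∈ A).card < G.card) :
    ∃ G' : Finset (Finset (Fin m)), univ ∈ G' ∧ (∀ A ∈ G', ∀ B ∈ G', A ∪ B ∈ G') ∧
      ∀ i : Fin m, 2 * (G'.filter fun A => i ∈ A).card < G'.card := by
  classical
  obtain ⟨A0, hA0, u, hu⟩ := hne
  have hG : G.Nonempty := ⟨A0, hA0⟩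
  set U : Finset (Fin m) := G.sup' hG id with hUdef
  have hUG : U ∈ G := by
    have := Finset.sup'_mem (↑G : Set (Finset (Fin m))) (fun x hx y hy => hU x hx y hy) G hG id
      (fun i hi => hi)
    exact Finset.mem_coe.1 this
  have hle : ∀ A ∈ G, A ⊆ U := fun A hA => by
    have h' : id A ≤ G.sup' hG id := Finset.le_sup' (f := id) hA
    exact h'
  have huU : u ∈ U := hle A0 hA0 hu
  let φ : Finset (Fin m) → Finset (Fin m) := fun A => univ.filter fun v => v ∈ A ∨ (u ∈ A ∧ v ∉ U)
  have hφ : ∀ A v, v ∈ φ A ↔ v ∈ A ∨ (u ∈ A ∧ v ∉ U) := by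
    intro A v; simp [φ]
  have hinj : Set.InjOn φ (↑G : Set (Finset (Fin m))) := by
    intro A hA B hB h
    ext v
    by_cases hv : v ∈ U
    · have := congrArg (fun S => v ∈ S) h
      simp only [hφ, eq_iff_iff] at this
      tauto
    · have h1 : v ∉ A := fun h' => hv (hle A hA h')
      have h2 : v ∉ B := fun h' => hv (hle B hB h')
      tauto
  refine ⟨G.image φ, ?_, ?_, ?_⟩
  · rw [mem_image]
    refine ⟨U, hUG, ?_⟩
    ext v
    rw [hφ]
    simp only [mem_univ, iff_true]
    tauto
  · intro A hA B hB
    rw [mem_image] at hA hB ⊢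
    obtain ⟨A', hA', rfl⟩ := hA
    obtain ⟨B', hB', rfl⟩ := hB
    refine ⟨A' ∪ B', hU A' hA' B' hB', ?_⟩
    ext v
    simp only [hφ, mem_union]
    tauto
  · intro i
    rw [card_image_of_injOn hinj]
    have hkey : ∃ w : Fin m, ∀ A ∈ G, (i ∈ φ A ↔ w ∈ A) := by
      by_cases hi : i ∈ U
      · refine ⟨i, fun A _ => ?_⟩
        rw [hφ]; tauto
      · refine ⟨u, fun A hA => ?_⟩
        rw [hφ]
        have : i ∉ A := fun h' => hi (hle A hA h')
        tauto
    obtain ⟨w, hw⟩ := hkey
    have : ((G.image φ).filter fun A => i ∈ A).card ≤ (G.filter fun A => w ∈ A).card := by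
      rw [filter_image]
      refine card_image_le.trans (card_le_card ?_)
      intro A hA
      rw [mem_filter] at hA ⊢
      exact ⟨hA.1, (hw A hA.1).1 hA.2⟩
    have := hbad w
    omega

/-- Q1 for `n = 3m + 2` implies Frankl for `[m]`. -/
theorem frankl_of_q1 (m : ℕ) (hQ : Q1At (3 * m + 2)) : FranklAt m := by
  classical
  intro G0 hne0 hU0
  by_contra hcon0
  push Not at hcon0
  obtain ⟨A0, hA0, i0, hi0⟩ := id hne0
  obtain ⟨G, hGtop, hU, hcon⟩ := wlog_top G0 hne0 hU0 hcon0
  clear hcon0 hU0 hA0 hi0
  -- the ground set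
  obtain ⟨e⟩ : Nonempty ((Fin 3 × Fin m) ⊕ Fin 2 ≃ Fin (3 * m + 2)) :=
    ⟨(Equiv.sumCongr finProdFinEquiv (Equiv.refl _)).trans finSumFinEquiv⟩
  obtain ⟨Φ, hΦ⟩ : ∃ Φ : (Fin 3 → Finset (Fin m)) → Finset (Fin (3 * m + 2)),
      ∀ g v, v ∈ Φ g ↔ ∃ p : Fin 3 × Fin m, e (Sum.inl p) = v ∧ p.2 ∈ g p.1 :=
    ⟨fun g => univ.filter fun v => ∃ p : Fin 3 × Fin m, e (Sum.inl p) = v ∧ p.2 ∈ g p.1,
      fun g v => by simp only [mem_filter, mem_univ, true_and]⟩
  have hΦl : ∀ (g : Fin 3 → Finset (Fin m)) (p : Fin 3 × Fin m),
      e (Sum.inl p) ∈ Φ g ↔ p.2 ∈ g p.1 := by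
    intro g p
    rw [hΦ]
    constructor
    · rintro ⟨q, hq, hq2⟩
      have := e.injective hq
      rw [Sum.inl.injEq] at this
      subst this
      exact hq2
    · intro h; exact ⟨p, rfl, h⟩
  have hΦr : ∀ (g : Fin 3 → Finset (Fin m)) (t : Fin 2), e (Sum.inr t) ∉ Φ g := by
    intro g t
    rw [hΦ]
    rintro ⟨q, hq, -⟩
    have := e.injective hq
    simp at this
  have hΦunion : ∀ g g', Φ g ∪ Φ g' = Φ (fun j => g j ∪ g' j) := by
    intro g g'
    ext v
    obtain ⟨w, rfl⟩ := e.surjective v
    rcases w with p | t
    · simp only [mem_union, hΦl]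
    · simp only [mem_union, hΦr, or_self]
  have hΦinj : Function.Injective Φ := by
    intro g g' h
    funext j
    ext u
    rw [← hΦl g (j, u), ← hΦl g' (j, u), h]
  set D : Finset (Fin (3 * m + 2)) := Φ (fun _ => univ) with hDdef
  have hDcard : D.card + 2 = 3 * m + 2 := by
    have : D = (univ : Finset (Fin 3 × Fin m)).map
        (Function.Embedding.inl.trans e.toEmbedding) := by
      ext v
      obtain ⟨w, rfl⟩ := e.surjective v
      rcases w with p | t
      · simp [hDdef, hΦl]
      · simp [hDdef, hΦr]
    rw [this, card_map, card_univ, Fintype.card_prod, Fintype.card_fin, Fintype.card_fin]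
  set PG : Finset (Fin 3 → Finset (Fin m)) := Fintype.piFinset (fun _ => G) with hPG
  have hPGmem : ∀ g, g ∈ PG ↔ ∀ j, g j ∈ G := by
    intro g; rw [hPG, Fintype.mem_piFinset]
  set F0 : Finset (Finset (Fin (3 * m + 2))) := (PG.image Φ).erase ∅ with hF0
  have hDne : D.Nonempty := by
    exact ⟨e (Sum.inl (0, i0)), (hΦl _ _).2 (mem_univ _)⟩
  have h1 : ∀ A ∈ F0, A.Nonempty := by
    intro A hA
    rw [hF0, mem_erase] at hA
    exact nonempty_iff_ne_empty.2 hA.1
  have h2 : ∀ A ∈ F0, A ⊆ D := by
    intro A hA
    rw [hF0, mem_erase, mem_image] at hA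
    obtain ⟨_, g, _, rfl⟩ := hA
    intro v hv
    obtain ⟨w, rfl⟩ := e.surjective v
    rcases w with p | t
    · exact (hΦl _ _).2 (mem_univ _)
    · exact absurd hv (hΦr g t)
  have h3 : D ∈ F0 := by
    rw [hF0, mem_erase, mem_image]
    exact ⟨nonempty_iff_ne_empty.1 hDne, fun _ => univ, (hPGmem _).2 (fun _ => hGtop), rfl⟩
  have h4 : ∀ A ∈ F0, ∀ B ∈ F0, A ∪ B ∈ F0 := by
    intro A hA B hB
    have hAne := h1 A hA
    rw [hF0, mem_erase, mem_image] at hA hB ⊢
    obtain ⟨_, g, hg, rfl⟩ := hA
    obtain ⟨_, g', hg', rfl⟩ := hB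
    refine ⟨nonempty_iff_ne_empty.1 (hAne.mono subset_union_left), fun j => g j ∪ g' j, ?_,
      (hΦunion g g').symm⟩
    rw [hPGmem] at hg hg' ⊢
    exact fun j => hU _ (hg j) _ (hg' j)
  obtain ⟨hUC, hdense⟩ := dense_of_insert D hDcard F0 h1 h2 h3 h4
  obtain ⟨v, hv⟩ := hQ _ hUC hdense
  -- count
  set N := G.card with hN
  have hN3 : 3 ≤ N := by
    have h := hcon i0
    have : 0 < (G.filter fun A => i0 ∈ A).card := by
      rw [card_pos]
      exact ⟨univ, mem_filter.2 ⟨hGtop, mem_univ _⟩⟩
    omega
  have hPGcard : PG.card = N ^ 3 := by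
    rw [hPG, Fintype.card_piFinset_const]
  have hunivnot : (univ : Finset (Fin (3 * m + 2))) ∉ F0 := by
    intro h
    have h' := h2 _ h (mem_univ (e (Sum.inr 0)))
    rw [hDdef] at h'
    exact hΦr _ _ h'
  have hFcard : N ^ 3 ≤ (insert univ F0).card := by
    rw [card_insert_of_notMem hunivnot, ← hPGcard, ← card_image_of_injective PG hΦinj, hF0]
    have := pred_card_le_card_erase (s := PG.image Φ) (a := ∅)
    omega
  have hdeg : ((insert univ F0).filter fun A => v ∈ A).card ≤
      1 + (PG.filter fun g => v ∈ Φ g).card := by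
    have hsub : ((insert univ F0).filter fun A => v ∈ A) ⊆
        insert univ ((PG.filter fun g => v ∈ Φ g).image Φ) := by
      intro A hA
      rw [mem_filter] at hA
      rcases mem_insert.1 hA.1 with rfl | hA1
      · exact mem_insert_self _ _
      · rw [hF0, mem_erase, mem_image] at hA1
        obtain ⟨_, g, hg, rfl⟩ := hA1
        exact mem_insert_of_mem (mem_image.2 ⟨g, mem_filter.2 ⟨hg, hA.2⟩, rfl⟩)
    calc ((insert univ F0).filter fun A => v ∈ A).card
        ≤ (insert univ ((PG.filter fun g => v ∈ Φ g).image Φ)).card := card_le_card hsub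
      _ ≤ ((PG.filter fun g => v ∈ Φ g).image Φ).card + 1 := card_insert_le _ _
      _ ≤ (PG.filter fun g => v ∈ Φ g).card + 1 := by
          exact Nat.add_le_add_right card_image_le 1
      _ = _ := by ring
  obtain ⟨w, rfl⟩ := e.surjective v
  rcases w with ⟨j, u⟩ | t
  · have hfil : (PG.filter fun g => e (Sum.inl (j, u)) ∈ Φ g) =
        Fintype.piFinset (fun i => if i = j then G.filter (fun A => u ∈ A) else G) := by
      ext g
      rw [mem_filter, hPGmem, hΦl, Fintype.mem_piFinset]
      constructor
      · rintro ⟨h, h'⟩ i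
        by_cases hij : i = j
        · subst hij; simp only [if_true]; exact mem_filter.2 ⟨h i, h'⟩
        · simp only [hij, if_false]; exact h i
      · intro h
        refine ⟨fun i => ?_, ?_⟩
        · have := h i
          by_cases hij : i = j
          · subst hij; simp only [if_true] at this; exact (mem_filter.1 this).1
          · simp only [hij, if_false] at this; exact this
        · have := h j
          simp only [if_true] at this
          exact (mem_filter.1 this).2
    have hcard : (PG.filter fun g => e (Sum.inl (j, u)) ∈ Φ g).card =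
        (G.filter fun A => u ∈ A).card * N ^ 2 := by
      rw [hfil, Fintype.card_piFinset, Fin.prod_univ_three]
      fin_cases j <;> simp <;> ring
    have hc := hcon u
    rw [hcard] at hdeg
    set d := (G.filter fun A => u ∈ A).card with hd
    have e1 : 2 * (d * N ^ 2) ≤ (N - 1) * N ^ 2 := by
      have : 2 * d ≤ N - 1 := by omega
      calc 2 * (d * N ^ 2) = (2 * d) * N ^ 2 := by ring
        _ ≤ (N - 1) * N ^ 2 := Nat.mul_le_mul_right _ this
    have e2 : (N - 1) * N ^ 2 + N ^ 2 = N ^ 3 := by
      obtain ⟨k, hk⟩ : ∃ k, N = k + 1 := ⟨N - 1, by omega⟩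
      rw [hk]; simp only [Nat.add_sub_cancel]; ring
    have e3 : 9 ≤ N ^ 2 := by nlinarith
    omega
  · have hfil : (PG.filter fun g => e (Sum.inr t) ∈ Φ g) = ∅ := by
      rw [filter_eq_empty_iff]
      intro g _
      exact hΦr g t
    rw [hfil, card_empty] at hdeg
    have : 27 ≤ N ^ 3 := by
      calc 27 = 3 ^ 3 := by norm_num
        _ ≤ N ^ 3 := Nat.pow_le_pow_left hN3 3
    omega

/-- Frankl for `[n]` implies Q1 for `[n]`. -/
theorem q1_of_frankl (n : ℕ) (hFr : FranklAt n) : Q1At n := by
  intro F hF _
  obtain ⟨i, hi⟩ := hFr F ⟨univ, hF.2.1, hF.1 _ hF.2.1⟩ hF.2.2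
  exact ⟨i, by omega⟩

/-- Every union-closed family over an `(n-2)`-subset `D` of `[n]` becomes an `(n-1)`-dense family
over `[n]` by adding the single set `[n]`; Frankl's conjecture for `[n]` implies Q1 for `[n]`;
Q1 for `[3m+2]` implies Frankl's conjecture for `[m]`; so Q1 (for all `n ≥ 1`) is equivalent to
Frankl's union-closed sets conjecture. -/
theorem result :
    (∀ (n : ℕ) (D : Finset (Fin n)) (F₀ : Finset (Finset (Fin n))), D.card + 2 = n →
        (∀ A ∈ F₀, A.Nonempty ∧ A ⊆ D) → D ∈ F₀ → (∀ A ∈ F₀, ∀ B ∈ F₀, A ∪ B ∈ F₀) →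
        UnionClosedOver (insert univ F₀) ∧ IsDense (n - 1) (insert univ F₀)) ∧
    (∀ n : ℕ, FranklAt n → Q1At n) ∧
    (∀ m : ℕ, Q1At (3 * m + 2) → FranklAt m) ∧
    ((∀ n : ℕ, 1 ≤ n → Q1At n) ↔ ∀ m : ℕ, FranklAt m) := by
  refine ⟨?_, q1_of_frankl, frankl_of_q1, ?_, ?_⟩
  · intro n D F₀ hD h h3 h4
    exact dense_of_insert D hD F₀ (fun A hA => (h A hA).1) (fun A hA => (h A hA).2) h3 h4
  · intro h m
    exact frankl_of_q1 m (h _ (by omega))
  · intro h n _
    exact q1_of_frankl n (h n)

end Pool.Agent.Results.MP_848b0a_co.EquivFrankl
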